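import Pool.Agent.H543.MQ.U.U1

/-!
# One slot: the right order of magnitude
-/

set_option autoImplicit false
set_option linter.unusedSectionVars false

namespace Pool.Agent.H543.MQ.R

open Finset Filter
open Pool.Agent.R498.MT hiding Vp_low pt_up exb' c1z
open Pool.Agent.H543.MQ hiding pre core1q
open Pool.Agent.H543.MQ.U
open Pool.Agent.Y677.RSZ (rt Sys rhoT per_mod ev_log)
open Pool.Agent.TH423.SH (PS)
open Pool.Agent.W23.DC
open Pool.Agent.Y882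
open Pool.Agent.Y882.PX hiding gd
open Pool.Agent.Y882.KW

theorem asm0 {S : Type} [Fintype S] [DecidableEq S] (k : ℕ) (q l : S → ℝ) (R v : ℝ) (hR : 0 < R)
    (hv : 0 ≤ v) (cL : Finset S → ℝ) (hV : v ≤ ∑ T, cL T * ∏ t ∈ T, 1 / q t)
    {N : Finset ℕ} {ν θ : ℕ → ℝ} {ξ : ℕ → S → Option (Fin (2 ^ k))} {X X' E B : ℝ}
    (hX : 0 ≤ X) (hXX : X ≤ X') (hXX' : X' ≤ (1 + E) * X)
    (hC1 : Cnt N ν ξ (fun t _ => 1 / q t) X E (fun T => lt l T ≤ 2 * R))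
    (hν : ∀ n ∈ N, 0 ≤ ν n) (hνθ : ∀ n ∈ N, ν n ≤ θ n) (i : Fin (2 ^ k))
    (hR1 : Rem k q l R i cL N θ ξ X' B)
    (hR0 : Rem k q l R i (fun T => if T = ∅ then 1 else 0) N θ ξ X' B)
    (wb : ℕ → ℝ)
    (hwb : ∀ n ∈ N, ∑ T, cL T * (if ∀ t ∈ T, ξ n t = some i then 1 else 0) ≤ wb n)
    (hwb1 : ∀ n ∈ N, wb n ≤ 1) :
    (v - 2 * E) * X - 2 * B ≤ ∑ n ∈ N, ν n * wb n := by
  have hlt : lt l (fun _ : S => (none : Option (Fin (2 ^ k)))) ≤ 2 * R := by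
    unfold lt
    simp
    positivity
  have hsub : ∀ x : S → Option (Fin (2 ^ k)), Sub (fun _ : S => none) x := fun x t => Or.inl rfl
  have h0 := hC1 (fun _ => none) hlt
  have h0' : |∑ n ∈ N, ν n - X| ≤ E * X := by
    simpa [hsub, Pool.Agent.R498.MT.rr] using h0
  have hgen : ∀ c : Finset S → ℝ, Rem k q l R i c N θ ξ X' B →
      |∑ n ∈ N, θ n * (∑ T, c T * (if ∀ t ∈ T, ξ n t = some i then 1 else 0)) -
        X' * ∑ T, c T * ∏ t ∈ T, 1 / q t| ≤ B := by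
    intro c hc
    have h1 := hc (fun _ => none) (fun t => by simp) hlt
    refine le_trans (le_of_eq ?_) h1
    congr 1
    have e1 : ∑ n ∈ N, θ n * (∑ T, c T * (if ∀ t ∈ T, ξ n t = some i then (1 : ℝ) else 0)) =
        ∑ T, c T * ∑ n ∈ N, θ n * (if ∀ t ∈ T, ξ n t = some i then (1 : ℝ) else 0) := by
      simp only [mul_sum]
      rw [sum_comm]
      refine sum_congr rfl fun T _ => sum_congr rfl fun n _ => by ring
    have e2 : X' * ∑ T, c T * ∏ t ∈ T, 1 / q t = ∑ T, c T * (X' * ∏ t ∈ T, 1 / q t) := by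
      rw [mul_sum]
      refine sum_congr rfl fun T _ => by ring
    rw [e1, e2, ← sum_sub_distrib]
    refine sum_congr rfl fun T _ => ?_
    rw [← mul_sub]
    congr 1
    simp [hsub, Pool.Agent.R498.MT.rr]
  have h1 := hgen cL hR1
  have h2 := hgen _ hR0
  have e3 : ∑ n ∈ N, θ n * (∑ T : Finset S, (if T = ∅ then (1 : ℝ) else 0) *
      (if ∀ t ∈ T, ξ n t = some i then 1 else 0)) = ∑ n ∈ N, θ n := by
    refine sum_congr rfl fun n _ => ?_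
    rw [sum_eq_single ∅ (fun T _ hT => by rw [if_neg hT, zero_mul])
      (fun h => absurd (mem_univ _) h)]
    simp
  have e4 : ∑ T : Finset S, (if T = ∅ then (1 : ℝ) else 0) * ∏ t ∈ T, 1 / q t = 1 := by
    rw [sum_eq_single ∅ (fun T _ hT => by rw [if_neg hT, zero_mul])
      (fun h => absurd (mem_univ _) h)]
    simp
  rw [e3, e4, mul_one] at h2
  set V : ℝ := ∑ T, cL T * ∏ t ∈ T, 1 / q t with hVdef
  have k0 := (abs_le.1 h0').1
  have k1 := (abs_le.1 h1).1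
  have k2 := (abs_le.1 h2).2
  have pt : ∑ n ∈ N, (ν n - θ n + θ n * (∑ T, cL T *
      (if ∀ t ∈ T, ξ n t = some i then (1 : ℝ) else 0))) ≤ ∑ n ∈ N, ν n * wb n := by
    refine sum_le_sum fun n hn => ?_
    have s1 := hwb n hn
    have s2 := hwb1 n hn
    have s4 := hν n hn
    have s5 := hνθ n hn
    set s : ℝ := ∑ T, cL T * (if ∀ t ∈ T, ξ n t = some i then 1 else 0) with hs
    have t1 := mul_nonneg s4 (sub_nonneg.2 s1)
    have t2 := mul_nonneg (sub_nonneg.2 s5) (sub_nonneg.2 (s1.trans s2))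
    nlinarith
  rw [sum_add_distrib, sum_sub_distrib] at pt
  have k3 : X * v ≤ X' * V := mul_le_mul hXX hV hv (hX.trans hXX)
  nlinarith

open Classical in
/-- one slot -/
theorem core1q0 (F G : ℤ → ℤ) (g : ℕ) (hF : Sys0 g F) (hG : Sys g G)
    (hGF : ∀ p : ℕ, p.Prime → ∀ n : ℤ, (p : ℤ) ∣ G n → (p : ℤ) ∣ F n)
    (k W Y b M L z : ℕ) (ζ υ aw bw R f0 ε₁ E : ℝ)
    (hb : 0 ≤ bw) (hab : bw * υ ≤ aw)
    (hR : 0 < R) (hf0 : 0 < f0) (hε : 0 < ε₁)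
    (hE8 : 8 * E ≤ ε₁ * f0)
    (t : Fin (2 ^ k) → ℕ) (hY2' : 2 ≤ Y)
    (hbW : ∀ p : ℕ, p.Prime → p ∣ W → ¬ (p : ℤ) ∣ F b) (hz2 : (Y : ℝ) ^ ε₁ ≤ z + 1)
    (cL0 : Finset ℕ → ℝ)
    (hc3 : ∀ N : ℕ, VV (pr Y ε₁ υ) cL0 (fun p => if p ∣ N then 1 else 0) ≤ WB Y ε₁ ζ υ aw bw N)
    (hc4 : ε₁ * f0 ≤ VV (pr Y ε₁ υ) cL0 (fun p => (rt G p : ℝ) / p))
    (hU : ∀ (K : ℕ) (s : Pg G Y ε₁ υ) i j, ((s : ℕ) : ℤ) ∣ G ((W * (K + t i) + b : ℕ) : ℤ) →
      ((s : ℕ) : ℤ) ∣ G ((W * (K + t j) + b : ℕ) : ℤ) → i = j)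
    (hV0 : 0 < Vp F W b z t)
    (hcnt : Cnt (Ioc M (M + L)) (nuI F W b z t) (xi G W b t (fun s : Pg G Y ε₁ υ => (s : ℕ)))
      (fun s _ => 1 / qs G Y ε₁ υ s) (L * Vp F W b z t) E
      (fun T => lt (ls G Y ε₁ υ) T ≤ 2 * R))
    (θ : ℕ → ℝ) (X' B : ℝ) (hθ : ∀ K, nuI F W b z t K ≤ θ K)
    (hX1 : L * Vp F W b z t ≤ X') (hX2 : X' ≤ (1 + E) * (L * Vp F W b z t))
    (hR1 : ∀ i, Rem k (qs G Y ε₁ υ) (ls G Y ε₁ υ) R i
      (fun T => cL0 (T.map (Function.Embedding.subtype _))) (Ioc M (M + L)) θ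
      (xi G W b t (fun s : Pg G Y ε₁ υ => (s : ℕ))) X' B)
    (hR0 : ∀ i, Rem k (qs G Y ε₁ υ) (ls G Y ε₁ υ) R i
      (fun T => if T = ∅ then 1 else 0) (Ioc M (M + L)) θ
      (xi G W b t (fun s : Pg G Y ε₁ υ => (s : ℕ))) X' B)
    (hBX : 8 * B ≤ ε₁ * f0 * (L * Vp F W b z t)) :
    ε₁ * f0 / 2 * (L * Vp F W b z t) ≤
      ((gd F G Y ε₁ ζ υ aw bw W b t 0 M L).card : ℝ) := by
  have hξ : ∀ K (s : Pg G Y ε₁ υ) j,
      xi G W b t (fun s : Pg G Y ε₁ υ => (s : ℕ)) K s = some j ↔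
        ((s : ℕ) : ℤ) ∣ G ((W * (K + t j) + b : ℕ) : ℤ) :=
    fun K s j => xi_iff G W b t _ K s (hU K s) j
  have hX : 0 ≤ (L : ℝ) * Vp F W b z t := by positivity
  have hslot : ∀ i : Fin (2 ^ k), ε₁ * f0 / 2 * (L * Vp F W b z t) ≤
      ∑ K ∈ Ioc M (M + L), nuI F W b z t K *
        WB Y ε₁ ζ υ aw bw (G ((W * (K + t i) + b : ℕ) : ℤ)).natAbs := by
    intro i
    have hasm := asm0 k (qs G Y ε₁ υ) (ls G Y ε₁ υ) R (ε₁ * f0) hR (by positivity)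
      (fun T => cL0 (T.map (Function.Embedding.subtype _)))
      (by
        refine hc4.trans (le_of_eq ?_)
        rw [VV_restrict (pr Y ε₁ υ) (Pg G Y ε₁ υ) (filter_subset _ _) cL0
          (fun p => (rt G p : ℝ) / p) (fun p hp hp' => by
            have h0 : rt G p = 0 := by
              by_contra h1
              exact hp' (mem_filter.2 ⟨hp, h1⟩)
            rw [h0]
            simp)]
        refine sum_congr rfl fun T _ => ?_
        congr 1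
        refine prod_congr rfl fun s _ => ?_
        unfold qs
        rw [one_div, inv_div])
      (N := Ioc M (M + L)) (ν := nuI F W b z t) (θ := θ)
      (ξ := xi G W b t (fun s : Pg G Y ε₁ υ => (s : ℕ))) (X := L * Vp F W b z t) (X' := X')
      (E := E) (B := B) hX hX1 hX2 hcnt
      (fun K _ => by unfold nuI; split_ifs <;> norm_num) (fun K _ => hθ K) i (hR1 i) (hR0 i)
      (fun K => WB Y ε₁ ζ υ aw bw (G ((W * (K + t i) + b : ℕ) : ℤ)).natAbs)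
      (fun K _ => by
        have h1 := slot_w G hG.per Y ε₁ υ hY2' cL0 (W * (K + t i) + b) i
          (xi G W b t (fun s : Pg G Y ε₁ υ => (s : ℕ)) K) (fun s => hξ K s i)
        have h2 := hc3 (G ((W * (K + t i) + b : ℕ) : ℤ)).natAbs
        refine le_trans (le_of_eq ?_) h2
        refine Eq.trans ?_ h1
        refine sum_congr rfl fun T _ => ?_
        congr)
      (fun K _ => WB_le_one Y ε₁ ζ υ aw bw hb hab _)
    refine le_trans ?_ hasm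
    nlinarith
  have hup := sum_le_sum (s := Ioc M (M + L)) fun K hK =>
    Pool.Agent.H543.MQ.U.pt_up F G g hF hGF Y ε₁ ζ υ aw bw 1 1 W b z k 0 M L t hY2' hb hab hbW hz2 K
        hK zero_le_one le_rfl
  have hsum : ∑ K ∈ Ioc M (M + L), (if K ∈ gd F G Y ε₁ ζ υ aw bw W b t 0 M L then
      (1 : ℝ) * 2 ^ k else 0) =
      (gd F G Y ε₁ ζ υ aw bw W b t 0 M L).card * (1 * 2 ^ k) := by
    rw [← sum_filter, sum_const, nsmul_eq_mul]
    congr 2
    congr 1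
    ext K
    rw [mem_filter]
    constructor
    · exact fun h => h.2
    · intro h
      refine ⟨?_, h⟩
      unfold gd at h
      exact (mem_filter.1 h).1
  rw [hsum] at hup
  have hlow : (2 : ℝ) ^ k * (ε₁ * f0 / 2 * (L * Vp F W b z t)) ≤
      ∑ K ∈ Ioc M (M + L), nuI F W b z t K * (1 * (∑ i, WB Y ε₁ ζ υ aw bw
        (G ((W * (K + t i) + b : ℕ) : ℤ)).natAbs - (0 : ℕ))) := by
    have e : ∑ K ∈ Ioc M (M + L), nuI F W b z t K * (1 * (∑ i, WB Y ε₁ ζ υ aw bw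
        (G ((W * (K + t i) + b : ℕ) : ℤ)).natAbs - (0 : ℕ))) =
        ∑ i : Fin (2 ^ k), ∑ K ∈ Ioc M (M + L), nuI F W b z t K *
        WB Y ε₁ ζ υ aw bw (G ((W * (K + t i) + b : ℕ) : ℤ)).natAbs := by
      rw [sum_comm]
      refine sum_congr rfl fun K _ => ?_
      rw [Nat.cast_zero, sub_zero, one_mul, mul_sum]
    rw [e]
    have h3 := sum_le_sum (s := (univ : Finset (Fin (2 ^ k)))) fun i _ => hslot i
    refine le_trans (le_of_eq ?_) h3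
    rw [sum_const, nsmul_eq_mul, card_univ, Fintype.card_fin]
    push_cast
    rfl
  have h4 := hlow.trans hup
  have h5 : (0 : ℝ) < 2 ^ k := by positivity
  rw [one_mul] at h4
  have h6 : (2 : ℝ) ^ k * (ε₁ * f0 / 2 * (L * Vp F W b z t)) ≤
      2 ^ k * ((gd F G Y ε₁ ζ υ aw bw W b t 0 M L).card : ℝ) := by
    rw [mul_comm (2 ^ k) ((gd F G Y ε₁ ζ υ aw bw W b t 0 M L).card : ℝ)]
    exact h4
  exact le_of_mul_le_mul_left h6 h5

end Pool.Agent.H543.MQ.R
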