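import Pool.Agent.H543.MQ.V.V2
import Pool.Agent.H543.MQ.R.R1

/-!
# One slot: the good points
-/

set_option autoImplicit false
set_option linter.unusedSectionVars false

namespace Pool.Agent.H543.MQ.R

open Finset Filter Polynomial
open Pool.Agent.R498.MT hiding Vp_low pt_up exb' c1z
open Pool.Agent.H543.MQ hiding pre core1q core2
open Pool.Agent.H543.MQ.U hiding core2 mid
open Pool.Agent.H543.MQ.V hiding core2 mid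
open Pool.Agent.Y677.RSZ (rt Sys rhoT per_mod ev_log V eng_all)
open Pool.Agent.TH423.SH (PS)
open Pool.Agent.W23.DC
open Pool.Agent.Y882
open Pool.Agent.Y882.PX hiding gd
open Pool.Agent.Y882.KW
open Pool.Agent.Y346.PA (S_KL)
open Pool.Agent.H543.DD
open Pool.Agent.H543.DP (fv NV dt NS cF)

open Classical in
/-- the arguments with a good set of slots -/
theorem many3 (F G : ℤ → ℤ) (KK q0 W b M L Y k m a : ℕ) (ε₁ ζ υ υ' θ aw bw c V : ℝ)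
    (hSq : ∀ q : ℕ, q.Prime → q0 ≤ q → ∀ N H : ℕ,
      ((((Icc 1 H).filter (fun j : ℕ => ((q ^ 2 : ℕ) : ℤ) ∣ G ((N + j : ℕ) : ℤ))).card : ℕ) : ℝ) ≤
        KK * (H * (1 / (q : ℝ) ^ 2) + 1)) (hW : 0 < W) (hY : 3 ≤ Y)
    (hq0 : (q0 : ℝ) + 2 ≤ (Y : ℝ) ^ ζ) (t : Fin (2 ^ k) → ℕ)
    (hc : 0 < c) (hV : 0 < V) (hV1 : 1 ≤ Real.log Y ^ a * V)
    (hgd : c * (L * V) ≤ ((gd F G Y ε₁ ζ υ aw bw W b t m M L).card : ℝ))
    (hL : (Y : ℝ) ^ θ ≤ L)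
    (h1 : 8 * (2 ^ k * KK * W) / c * Real.log Y ^ a ≤ (Y : ℝ) ^ ζ)
    (h2 : 4 * (2 ^ k * KK) / c * Real.log Y ^ a ≤ (Y : ℝ) ^ (θ - υ')) :
    ∃ (Hs : Finset (Fin (2 ^ k))) (A : Finset ℕ), Hs.card = m + 1 ∧
      c / (2 * 2 ^ 2 ^ k) * (L * V) ≤ A.card ∧
      ∀ K ∈ A, K ∈ Ioc M (M + L) ∧ (∀ p : ℕ, p.Prime → (p : ℝ) < (Y : ℝ) ^ ε₁ → ∀ i,
          ¬ (p : ℤ) ∣ F ((W * (K + t i) + b : ℕ) : ℤ)) ∧
        ∀ i ∈ Hs, 0 < WW Y ζ υ aw bw (G ((W * (K + t i) + b : ℕ) : ℤ)).natAbs ∧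
          ∀ q ∈ pr Y ζ υ', ¬ ((q ^ 2 : ℕ) : ℤ) ∣ G ((W * (K + t i) + b : ℕ) : ℤ) := by
  have hYr : (3 : ℝ) ≤ Y := by exact_mod_cast hY
  have hY0 : (0 : ℝ) < Y := by linarith
  have hlY : 0 < Real.log Y := Real.log_pos (by linarith)
  have hL0 : (0 : ℝ) < L := lt_of_lt_of_le (by positivity) hL
  set Bd := (Ioc M (M + L)).filter (fun K => ∃ i, ∃ q ∈ pr Y ζ υ',
      ((q ^ 2 : ℕ) : ℤ) ∣ G ((W * (K + t i) + b : ℕ) : ℤ)) with hBd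
  set Gd := gd F G Y ε₁ ζ υ aw bw W b t m M L with hGd
  have hbad := bad_le G KK q0 hSq W b M L Y t hW ζ υ' (by omega) hq0
  have hbad2 : ((2 ^ k : ℕ) : ℝ) * (KK * ((W * L : ℕ) * (2 / (Y : ℝ) ^ ζ) + (Y : ℝ) ^ υ')) ≤
      c / 2 * (L * V) := by
    have hla : 0 < Real.log Y ^ a := by positivity
    rw [div_mul_eq_mul_div, div_le_iff₀ hc] at h1 h2
    have e1 : ((2 ^ k : ℕ) : ℝ) * (KK * ((W * L : ℕ) * (2 / (Y : ℝ) ^ ζ))) ≤ c / 4 * (L * V) := by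
      have hNζ : (0 : ℝ) < (Y : ℝ) ^ ζ := by positivity
      push_cast
      rw [show (2 : ℝ) ^ k * (KK * (W * L * (2 / (Y : ℝ) ^ ζ))) =
        (2 * (2 ^ k * KK * W)) * L / (Y : ℝ) ^ ζ by ring, div_le_iff₀ hNζ]
      have e2 : 8 * (2 ^ k * KK * W : ℝ) * L * 1 ≤ 8 * (2 ^ k * KK * W : ℝ) * L *
          (Real.log Y ^ a * V) := mul_le_mul_of_nonneg_left hV1 (by positivity)
      have e3 : (8 * (2 ^ k * KK * W) * Real.log Y ^ a) * (L * V) ≤ ((Y : ℝ) ^ ζ * c) * (L * V) :=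
        mul_le_mul_of_nonneg_right h1 (by positivity)
      linarith
    have e2 : ((2 ^ k : ℕ) : ℝ) * (KK * (Y : ℝ) ^ υ') ≤ c / 4 * (L * V) := by
      push_cast
      have e3 : (Y : ℝ) ^ υ' * (Y : ℝ) ^ (θ - υ') ≤ L := by
        rw [← Real.rpow_add hY0]
        refine le_trans (le_of_eq ?_) hL
        congr 1
        ring
      have e4 : (4 * (2 ^ k * KK) * Real.log Y ^ a) * ((Y : ℝ) ^ υ' * V) ≤
          ((Y : ℝ) ^ (θ - υ') * c) * ((Y : ℝ) ^ υ' * V) :=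
        mul_le_mul_of_nonneg_right h2 (by positivity)
      have e5 : ((Y : ℝ) ^ υ' * (Y : ℝ) ^ (θ - υ')) * (c * V) ≤ L * (c * V) :=
        mul_le_mul_of_nonneg_right e3 (by positivity)
      have e6 : 4 * (2 ^ k * KK : ℝ) * (Y : ℝ) ^ υ' * 1 ≤ 4 * (2 ^ k * KK : ℝ) * (Y : ℝ) ^ υ' *
          (Real.log Y ^ a * V) := mul_le_mul_of_nonneg_left hV1 (by positivity)
      linarith
    rw [mul_add, mul_add]
    linarith
  have hcard : c / 2 * (L * V) ≤ ((Gd \ Bd).card : ℝ) := by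
    have h3 : (Gd.card : ℝ) ≤ (Gd \ Bd).card + Bd.card := by
      have h4 : Gd ⊆ (Gd \ Bd) ∪ Bd := by
        intro x hx
        by_cases hb : x ∈ Bd
        · exact mem_union_right _ hb
        · exact mem_union_left _ (mem_sdiff.2 ⟨hx, hb⟩)
      exact_mod_cast (card_le_card h4).trans (card_union_le _ _)
    have h4 : (Bd.card : ℝ) ≤ c / 2 * (L * V) := by
      refine le_trans ?_ (hbad.trans hbad2)
      rw [hBd]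
    linarith
  have hpos : 0 < c / 2 * (L * V) := by positivity
  have hne : (Gd \ Bd).Nonempty := by
    rw [← card_pos]
    have : (0 : ℝ) < ((Gd \ Bd).card : ℝ) := hpos.trans_le hcard
    exact_mod_cast this
  obtain ⟨Hs, hHs, hle⟩ := pigH (2 ^ k) (m + 1) (Gd \ Bd) (fun K => univ.filter (fun i =>
      0 < WW Y ζ υ aw bw (G ((W * (K + t i) + b : ℕ) : ℤ)).natAbs)) hne (by
    intro K hK
    have h3 := (mem_sdiff.1 hK).1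
    rw [hGd] at h3
    unfold gd at h3
    rw [mem_filter] at h3
    exact h3.2.2)
  refine ⟨Hs, (Gd \ Bd).filter (fun K => Hs ⊆ univ.filter (fun i =>
      0 < WW Y ζ υ aw bw (G ((W * (K + t i) + b : ℕ) : ℤ)).natAbs)), hHs, ?_, ?_⟩
  rotate_left
  · intro K hK
    have hK' := mem_filter.1 hK
    obtain ⟨hK1, hK2⟩ := hK'
    obtain ⟨hK3, hK4⟩ := mem_sdiff.1 hK1
    rw [hGd] at hK3
    unfold gd at hK3
    rw [mem_filter] at hK3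
    refine ⟨hK3.1, hK3.2.1, ?_⟩
    intro i hi
    have h3 := mem_filter.1 (hK2 hi)
    refine ⟨h3.2, ?_⟩
    intro q hq hqd
    apply hK4
    rw [hBd, mem_filter]
    exact ⟨hK3.1, i, q, hq, hqd⟩
  · rw [div_mul_eq_mul_div, div_le_iff₀ (by positivity)]
    have h3 : (((Gd \ Bd).card : ℕ) : ℝ) ≤ 2 ^ 2 ^ k *
        (((Gd \ Bd).filter (fun K => Hs ⊆ univ.filter (fun i =>
      0 < WW Y ζ υ aw bw (G ((W * (K + t i) + b : ℕ) : ℤ)).natAbs))).card : ℝ) := by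
      exact_mod_cast hle
    have h4 : c / 2 * (L * V) * 2 = c * (L * V) := by ring
    linarith

open Classical in
theorem mid0 (A : ℕ) (B C : ℤ) (hA : 1 ≤ A) (hna : ¬ IsSquare (-(dt A B C)))
    (CG : ℕ) (hGs : ∀ n : ℕ, fv A B C (n : ℤ) ≠ 0 ∧ (fv A B C (n : ℤ)).natAbs ≤ CG * (n + 1) ^ 2) :
    ∃ κ : ℝ, 0 < κ ∧ κ ≤ 1 / 100 ∧ ∀ g : ℕ, 1 ≤ g → Sys g (fv A B C) →
    ∃ (k W₀ : ℕ) (ε₁ c η : ℝ), k = 0 ∧
      2 ≤ W₀ ∧ Squarefree W₀ ∧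
      (∀ p : ℕ, p.Prime → p ≤ g * 2 ^ k + 1 → p ∣ W₀) ∧
      0 < ε₁ ∧ ε₁ ≤ pζ ∧ 0 < c ∧ 0 < η ∧ η ≤ ε₁ ∧ η ≤ κ / 16 ∧
      ∀ᶠ N : ℕ in atTop, ∀ W : ℕ, 0 < W → W₀ ∣ W → (W : ℝ) ≤ (N : ℝ) ^ η →
        ∀ (t : Fin (2 ^ k) → ℕ), Function.Injective t →
        (∀ i, (t i : ℝ) ≤ (N : ℝ) ^ η) →
        ∀ (F : ℤ → ℤ), Sys0 g F →
        (∀ p : ℕ, p.Prime → ∀ n : ℤ, (p : ℤ) ∣ fv A B C n → (p : ℤ) ∣ F n) →
        ∀ b : ℕ, b < W → (∀ p : ℕ, p.Prime → p ∣ W → ¬ (p : ℤ) ∣ F b) →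
        ∀ r : ℕ, r < W → ∀ X : ℕ, (N : ℝ) ^ (1 - κ / 2) ≤ X → 2 * X ≤ N →
        ∃ (L z M : ℕ) (Hs : Finset (Fin (2 ^ k))) (A' : Finset ℕ), Hs.card = 1 ∧
          c * (L * Vp F W b z t) ≤ A'.card ∧
          0 < Vp F W b z t ∧ z ≤ N ∧
          W * (L + 2) ≤ X ∧ X ≤ 4 * (W * L) ∧ N + r < W * M ∧ W * M ≤ N + r + W ∧
          ∀ K ∈ A', K ∈ Ioc M (M + L) ∧
            ∀ i ∈ Hs, Gf A B C F N ε₁ (W * (K + t i) + b) := by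
  classical
  have hΔ : ¬ IsSquare (B ^ 2 - 4 * (A : ℤ) * C) := by
    have e : B ^ 2 - 4 * (A : ℤ) * C = -(dt A B C) := by unfold dt; ring
    rw [e]
    exact hna
  have hA0 : (A : ℤ) ≠ 0 := by exact_mod_cast (by omega : A ≠ 0)
  have hGs' : ∀ n : ℕ, fv A B C (n : ℤ) ≠ 0 ∧ (fv A B C (n : ℤ)).natAbs ≤ (n + 2) ^ (CG + 2) := by
    intro n
    refine ⟨(hGs n).1, (hGs n).2.trans ?_⟩
    rw [pow_add]
    apply Nat.mul_le_mul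
    · calc CG ≤ 2 ^ CG := Nat.lt_two_pow_self.le
        _ ≤ (n + 2) ^ CG := Nat.pow_le_pow_left (by omega) _
    · exact Nat.pow_le_pow_left (by omega) _
  have hMer : ∀ ε₁ υ η : ℝ, 0 < ε₁ → υ ≤ 1 → 0 < η → ∃ Y0 : ℕ, ∀ Y : ℕ, Y0 ≤ Y →
      Mer (pr Y ε₁ υ) (tt Y) (fun p => (rt (fv A B C) p : ℝ) / p) ε₁ υ η := by
    intro ε₁ υ η h1 h2 h3
    rw [← fv_QG]
    exact mer_QG A B C hA0 hΔ ε₁ υ η h1 h2 h3
  obtain ⟨KK, q0, hSq⟩ : ∃ KK q0 : ℕ, ∀ q : ℕ, q.Prime → q0 ≤ q → ∀ N H : ℕ,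
      ((((Icc 1 H).filter (fun j : ℕ => ((q ^ 2 : ℕ) : ℤ) ∣ fv A B C ((N + j : ℕ) : ℤ))).card : ℕ)
        : ℝ) ≤ KK * (H * (1 / (q : ℝ) ^ 2) + 1) := by
    refine ⟨2, (A : ℤ).natAbs + (B ^ 2 - 4 * (A : ℤ) * C).natAbs + 3, ?_⟩
    intro q hq hqa N H
    rw [← fv_QG]
    exact sq_QG A B C hA0 hΔ q hq (by omega) (by omega) N H
  obtain ⟨κ, hκ, hκ1, hcore⟩ := core20 Pool.Agent.Y346.PA.kl A B C hA hna (CG + 2) hGs' hMer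
  refine ⟨κ, hκ, hκ1, ?_⟩
  intro g hg1 hG
  obtain ⟨k, W₀, hKb, hW₀0, hW₀sq, hW₀p, hgW₀, ε₁, c, η, hε, hεζ, hc, hη0, hη1, hη2, N₀, hcore⟩ :=
    hcore g hG
  have hW₀2 : 2 ≤ W₀ := by
    have h1 : 2 ∣ W₀ := hW₀p 2 Nat.prime_two (by
      have : 1 ≤ g * 2 ^ k := Nat.mul_pos hg1 (by positivity)
      omega)
    exact Nat.le_of_dvd hW₀0 h1
  have hηε : η ≤ ε₁ := eta_le g ε₁ η hη0 hη1
  obtain ⟨aL, haL⟩ : ∃ aL : ℕ, aL = 2 * (g * 2 ^ k) + 1 := ⟨_, rfl⟩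
  refine ⟨k, W₀, ε₁, c / (2 * 2 ^ 2 ^ k), η, hKb, hW₀2, hW₀sq, hW₀p, hε, hεζ, by positivity, hη0, hηε,
    hη2, ?_⟩
  have hnums := nums3 q0 N₀ aL CG κ η
    (8 * (2 ^ k * KK) / c) (4 * (2 ^ k * KK) / c) hκ hκ1 hη0 hη2 (hηε.trans hεζ) (by positivity)
  have hnt := nt_size2 g (4 + 4) ε₁ η hε (hεζ.trans (by unfold pζ; norm_num)) hη0 hη1
  filter_upwards [hnums, hnt] with N hN hnt W hW0 hWdvd hWN t ht hti F hF hGF b hbW hb r hrW X hX1 hX2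
  have hW2 : 2 ≤ W := hW₀2.trans (Nat.le_of_dvd hW0 hWdvd)
  obtain ⟨NT, hNT, hNTr⟩ : ∃ NT : ℕ, (∀ i, t i ≤ NT) ∧ (NT : ℝ) ≤ (N : ℝ) ^ η := by
    refine ⟨univ.sup t, fun i => Finset.le_sup (f := t) (mem_univ i), ?_⟩
    obtain ⟨i, -, hi⟩ := Finset.exists_mem_eq_sup (univ : Finset (Fin (2 ^ k)))
      ⟨⟨0, by positivity⟩, mem_univ _⟩ t
    rw [hi]
    exact hti i
  obtain ⟨-, n8⟩ := hnt W NT hWN hNTr
  obtain ⟨⟨n1, n2, n5, n10, n11, n12⟩, hNX⟩ := hN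
  obtain ⟨n9, hNX⟩ := hNX W hW2 hWN
  obtain ⟨L, l1, l2, l4, l6, l7⟩ := hNX X hX1 hX2
  have hNr : (5 : ℝ) ≤ N := by exact_mod_cast n1
  have hN0 : (0 : ℝ) < N := by linarith
  have hN1 : (1 : ℝ) ≤ N := by linarith
  have hYp : ∀ x : ℝ, ((N ^ 2 : ℕ) : ℝ) ^ x = (N : ℝ) ^ (2 * x) := by
    intro x
    push_cast
    rw [← Real.rpow_natCast, ← Real.rpow_mul hN0.le]
    norm_num
  have hYN : N ≤ N ^ 2 := Nat.le_self_pow (by norm_num) N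
  obtain ⟨M, hM⟩ : ∃ M : ℕ, M = (N + r) / W + 1 := ⟨_, rfl⟩
  have hM1 : N + r < W * M := by
    rw [hM]
    exact Nat.lt_mul_div_succ (N + r) hW0
  have hM2 : W * M ≤ N + r + W := by
    rw [hM, mul_add, mul_one]
    have := Nat.mul_div_le (N + r) W
    omega
  obtain ⟨z, hz⟩ : ∃ z : ℕ, z + 1 = ⌈((N ^ 2 : ℕ) : ℝ) ^ ε₁⌉₊ := by
    have : 1 ≤ ⌈((N ^ 2 : ℕ) : ℝ) ^ ε₁⌉₊ := Nat.ceil_pos.2 (by positivity)
    exact ⟨⌈((N ^ 2 : ℕ) : ℝ) ^ ε₁⌉₊ - 1, by omega⟩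
  have hz1 : (z : ℝ) < ((N ^ 2 : ℕ) : ℝ) ^ ε₁ := by
    have h1 := Nat.ceil_lt_add_one (show 0 ≤ ((N ^ 2 : ℕ) : ℝ) ^ ε₁ by positivity)
    rw [← hz] at h1
    push_cast at h1 ⊢
    linarith
  have hz2 : ((N ^ 2 : ℕ) : ℝ) ^ ε₁ ≤ z + 1 := by
    have h1 := Nat.le_ceil (((N ^ 2 : ℕ) : ℝ) ^ ε₁)
    rw [← hz] at h1
    push_cast at h1 ⊢
    exact h1
  have hW10 : 5 * W ≤ N := by
    have h := (hnt W 1 hWN (by rw [Nat.cast_one]; exact Real.one_le_rpow hN1 hη0.le)).2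
    omega
  obtain ⟨hgd, hV0, hV1⟩ := hcore N n2 W hW0 hWdvd hWN t ht hti F hF hGF b hbW hb M L z (by omega)
    (by omega) l2 l4 hz1 hz2
  rw [← haL] at hV1
  have hLθ : ((N ^ 2 : ℕ) : ℝ) ^ (99 / 200 : ℝ) ≤ L := by
    refine le_trans ?_ l2
    rw [hYp]
    exact Real.rpow_le_rpow_of_exponent_le hN1 (by linarith)
  obtain ⟨Hs, A', hHs, hA1, hA2⟩ := many3 F (fv A B C) KK q0 W b M L (N ^ 2) k 0
    aL ε₁ pζ pυ (9 / 20) (99 / 200) pa pb c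
    (Vp F W b z t) hSq hW0 (by omega) n5 t hc hV0 hV1 hgd hLθ (by
      refine le_trans (le_of_eq ?_) n9
      ring) n10
  have hzN : z ≤ N := by
    have h1 : (z : ℝ) ≤ (N : ℝ) ^ (1 : ℝ) := by
      refine hz1.le.trans ?_
      rw [hYp]
      apply Real.rpow_le_rpow_of_exponent_le hN1
      have h2 : ε₁ ≤ 12 / 100 := by
        refine hεζ.trans ?_
        unfold pζ
        norm_num
      linarith
    rw [Real.rpow_one] at h1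
    exact_mod_cast h1
  refine ⟨L, z, M, Hs, A', hHs, hA1, hV0, hzN, l1, l7, hM1, hM2, ?_⟩
  intro K hK
  obtain ⟨hK1', hK2', hK3'⟩ := hA2 K hK
  refine ⟨hK1', ?_⟩
  intro i hi
  obtain ⟨hw, hsq⟩ := hK3' i hi
  have hx : W * (K + t i) + b + 1 ≤ 4 * N := by
    have h1 : W * t i ≤ W * NT := Nat.mul_le_mul_left _ (hNT i)
    have h2 : W * (K + t i) = W * K + W * t i := by ring
    rw [mem_Ioc] at hK1'
    have h3 : W * K ≤ W * (M + L) := Nat.mul_le_mul_left _ hK1'.2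
    have h5 : W * (M + L) = W * M + W * L := by ring
    have h6 : W * (L + 2) = W * L + 2 * W := by ring
    omega
  have hsize : (fv A B C ((W * (K + t i) + b : ℕ) : ℤ)).natAbs ≤ (16 * CG + 1) * N ^ 2 := by
    have h1 := (hGs (W * (K + t i) + b)).2
    have h4 : (W * (K + t i) + b + 1) ^ 2 ≤ (4 * N) ^ 2 := Nat.pow_le_pow_left hx 2
    calc (fv A B C ((W * (K + t i) + b : ℕ) : ℤ)).natAbs ≤ CG * (4 * N) ^ 2 :=
          h1.trans (Nat.mul_le_mul_left _ h4)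
      _ = (16 * CG) * N ^ 2 := by ring
      _ ≤ _ := Nat.mul_le_mul_right _ (by omega)
  have htwo := two_of (N ^ 2) (fv A B C ((W * (K + t i) + b : ℕ) : ℤ)).natAbs (16 * CG + 1)
    (by omega) (by omega) hsize (Int.natAbs_ne_zero.2 (hGs _).1) n12
    (by push_cast at n11 ⊢; exact n11) hw (fun q hq hqd => hsq q hq (Int.natCast_dvd.2 hqd))
  refine ⟨htwo.1, fun p hp hpd => ?_, fun p hp hpd => ?_⟩
  · have h1 := htwo.2 p hp (Int.natCast_dvd.1 hpd)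
    rw [hYp] at h1
    refine le_trans (le_of_eq ?_) h1
    congr 1
    unfold pζ
    norm_num
  · by_contra hcon
    push Not at hcon
    refine hK2' p hp ?_ i hpd
    rw [hYp]
    refine hcon.trans_le ?_
    exact Real.rpow_le_rpow_of_exponent_le hN1 (by linarith)

end Pool.Agent.H543.MQ.R
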