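import Pool.Agent.H543.MQ.R.R2
import Pool.Agent.H543.MQ.V.V4

/-!
# One argument: the right order of magnitude, uniformly
-/

set_option autoImplicit false
set_option linter.unusedSectionVars false

namespace Pool.Agent.H543.MQ.R

open Finset Filter Polynomial
open Pool.Agent.R498.MT hiding Vp_low pt_up exb' c1z PP_rt PP_sys PP_V
open Pool.Agent.H543.MQ hiding pre core1q core2
open Pool.Agent.H543.MQ.U hiding core2 mid
open Pool.Agent.H543.MQ.V hiding core2 mid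
open Pool.Agent.Y677.RSZ (rt Sys rhoT per_mod ev_log V eng_all)
open Pool.Agent.TH423.SH (PS)
open Pool.Agent.H543.DD
open Pool.Agent.H543.DP (fv NV dt NS cF)

theorem rho_le (F : ℤ → ℤ) (hper : ∀ p : ℕ, p.Prime → ∀ n : ℤ, (p : ℤ) ∣ F (n + p) - F n)
    (W b : ℕ) {n : ℕ} (t : Fin n → ℕ) (ht : ∀ i, t i = 0) (p : ℕ) (hp : p.Prime) (hpW : ¬ p ∣ W) :
    rhoT F W b t p ≤ rt F p := by
  unfold rhoT rt
  apply card_le_card_of_injOn (fun K => (W * K + b) % p)
  · intro K hK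
    rw [mem_coe, mem_filter] at hK
    obtain ⟨hK1, i, hi⟩ := hK
    rw [mem_coe, mem_filter]
    refine ⟨mem_range.2 (Nat.mod_lt _ hp.pos), ?_⟩
    rw [ht i, add_zero] at hi
    exact (per_mod hper hp (W * K + b) ((W * K + b) % p) (Nat.mod_modEq _ _).symm).1 hi
  · intro K hK K' hK' h
    rw [mem_coe, mem_filter, mem_range] at hK hK'
    have h1 : W * K + b ≡ W * K' + b [MOD p] := h
    have h2 : W * K ≡ W * K' [MOD p] := Nat.ModEq.add_right_cancel' b h1
    have hcop : Nat.gcd p W = 1 := (Nat.Prime.coprime_iff_not_dvd hp).2 hpW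
    have h3 : K ≡ K' [MOD p] := Nat.ModEq.cancel_left_of_coprime hcop h2
    exact Nat.ModEq.eq_of_lt_of_lt h3 hK.1 hK'.1

theorem V_ge (F : ℤ → ℤ) (hper : ∀ p : ℕ, p.Prime → ∀ n : ℤ, (p : ℤ) ∣ F (n + p) - F n)
    (W₀ q b z N : ℕ) {n : ℕ} (t : Fin n → ℕ) (ht : ∀ i, t i = 0) (hz : z ≤ N) :
    ∏ p ∈ PS q N, (1 - (rt F p : ℝ) / p) ≤ Vp F (W₀ * q) b z t := by
  have hrt : ∀ p : ℕ, p.Prime → 0 ≤ 1 - (rt F p : ℝ) / p ∧ 1 - (rt F p : ℝ) / p ≤ 1 := by
    intro p hp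
    have hp0 : (0 : ℝ) < p := by exact_mod_cast hp.pos
    have h1 : rt F p ≤ p := by
      unfold rt
      exact (card_filter_le _ _).trans (le_of_eq (card_range p))
    have h2 : (rt F p : ℝ) / p ≤ 1 := by
      rw [div_le_one hp0]
      exact_mod_cast h1
    have h3 : 0 ≤ (rt F p : ℝ) / p := by positivity
    constructor <;> linarith
  have hsub : PS (W₀ * q) z ⊆ PS q N := by
    intro p hp
    unfold PS at hp ⊢
    rw [mem_filter, mem_Icc] at hp ⊢
    exact ⟨⟨hp.1.1, hp.1.2.trans hz⟩, hp.2.1, fun h => hp.2.2 (Dvd.dvd.mul_left h _)⟩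
  have hprS : ∀ p ∈ PS q N, p.Prime := by
    intro p hp
    unfold PS at hp
    exact (mem_filter.1 hp).2.1
  calc ∏ p ∈ PS q N, (1 - (rt F p : ℝ) / p) =
        (∏ p ∈ PS q N \ PS (W₀ * q) z, (1 - (rt F p : ℝ) / p)) *
          ∏ p ∈ PS (W₀ * q) z, (1 - (rt F p : ℝ) / p) := (prod_sdiff hsub).symm
    _ ≤ 1 * ∏ p ∈ PS (W₀ * q) z, (1 - (rt F p : ℝ) / p) := by
        apply mul_le_mul_of_nonneg_right
        · apply prod_le_one
          · intro p hp
            exact (hrt p (hprS p (mem_sdiff.1 hp).1)).1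
          · intro p hp
            exact (hrt p (hprS p (mem_sdiff.1 hp).1)).2
        · apply prod_nonneg
          intro p hp
          exact (hrt p (hprS p (hsub hp))).1
    _ = ∏ p ∈ PS (W₀ * q) z, (1 - (rt F p : ℝ) / p) := one_mul _
    _ ≤ Vp F (W₀ * q) b z t := by
        unfold Vp
        apply Finset.prod_le_prod
        · intro p hp
          exact (hrt p (hprS p (hsub hp))).1
        · intro p hp
          have hp2 := hprS p (hsub hp)
          have hp0 : (0 : ℝ) < p := by exact_mod_cast hp2.pos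
          have h1 : rhoT F (W₀ * q) b t p ≤ rt F p := by
            apply rho_le F hper _ _ t ht p hp2
            unfold PS at hp
            exact (mem_filter.1 hp).2.2
          have h2 : (rhoT F (W₀ * q) b t p : ℝ) / p ≤ (rt F p : ℝ) / p := by
            apply div_le_div_of_nonneg_right _ hp0.le
            exact_mod_cast h1
          linarith

open Classical in
theorem one_q (A : ℕ) (B C : ℤ) (hA : 1 ≤ A) (hna : ¬ IsSquare (-(dt A B C)))
    (CG : ℕ) (hGs : ∀ n : ℕ, fv A B C (n : ℤ) ≠ 0 ∧ (fv A B C (n : ℤ)).natAbs ≤ CG * (n + 1) ^ 2) :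
    ∃ δ₀ : ℝ, 0 < δ₀ ∧ δ₀ ≤ 1 / 100 ∧ ∀ g : ℕ, 1 ≤ g → Sys g (fv A B C) →
    ∃ δ c : ℝ, 0 < δ ∧ 0 < c ∧
      ∀ᶠ N : ℕ in atTop, ∀ F : ℤ → ℤ, Sys0 g F →
        (∀ p : ℕ, p.Prime → ∀ n : ℤ, (p : ℤ) ∣ fv A B C n → (p : ℤ) ∣ F n) →
        ∀ q a : ℕ, 0 < q → (q : ℝ) ≤ (N : ℝ) ^ δ →
        (∀ p : ℕ, p.Prime → p ∣ q → ¬ (p : ℤ) ∣ F a) →
        ∀ X : ℕ, (N : ℝ) ^ (1 - δ₀) ≤ X → 2 * X ≤ N →
          c * (X / q * ∏ p ∈ PS q N, (1 - (rt F p : ℝ) / p)) ≤
            (((Ioc N (N + X)).filter (fun n : ℕ => n % q = a % q ∧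
            Gf A B C F N δ n)).card : ℝ) := by
  classical
  obtain ⟨κ, hκ, hκ1, hmid⟩ := mid0 A B C hA hna CG hGs
  refine ⟨κ / 2, by positivity, by linarith, ?_⟩
  intro g hg1 hG
  obtain ⟨k, W₀, ε₁, c, η, hk0, hW₀2, hW₀sq, hW₀p, hε, hεζ, hc, hη0, hηε, hη2, hmid⟩ := hmid g hg1 hG
  have hW₀0 : 0 < W₀ := by omega
  have hW₀r : (0 : ℝ) < W₀ := by exact_mod_cast hW₀0
  have hev1 : ∀ᶠ N : ℕ in atTop, (W₀ : ℝ) ≤ (N : ℝ) ^ (η / 2) :=
    ((tendsto_rpow_atTop (by positivity)).comp tendsto_natCast_atTop_atTop).eventually_ge_atTop _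
  refine ⟨η / 2, c / (4 * W₀), by positivity, by positivity, ?_⟩
  filter_upwards [hmid, hev1, eventually_ge_atTop 5] with N hN hW₀N hN5 F hF hGF q a hq hqN
    haq X hX1 hX2
  have hNr : (5 : ℝ) ≤ N := by exact_mod_cast hN5
  have hN0 : (0 : ℝ) < N := by linarith
  have hN1 : (1 : ℝ) ≤ N := by linarith
  have hqr : (0 : ℝ) < q := by exact_mod_cast hq
  obtain ⟨b, hbW, hba, hb⟩ := exbq hF W₀ q a hW₀0 hW₀sq hq haq
  have hWN : ((W₀ * q : ℕ) : ℝ) ≤ (N : ℝ) ^ η := by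
    push_cast
    calc (W₀ : ℝ) * q ≤ (N : ℝ) ^ (η / 2) * (N : ℝ) ^ (η / 2) :=
          mul_le_mul hW₀N hqN (Nat.cast_nonneg _) (by positivity)
      _ = _ := by rw [← Real.rpow_add hN0]; congr 1; ring
  have hinj : Function.Injective (fun _ : Fin (2 ^ k) => (0 : ℕ)) := by
    intro i j _
    have h1 : 2 ^ k = 1 := by rw [hk0, pow_zero]
    apply Fin.ext
    have := i.2
    have := j.2
    omega
  obtain ⟨L, z, M, Hs, A', h1, h2, h4, hz, h5, h7, h9, h10, h11⟩ :=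
    hN (W₀ * q) (Nat.mul_pos hW₀0 hq) (dvd_mul_right _ _) hWN (fun _ => 0) hinj (fun _ => by
      rw [Nat.cast_zero]; positivity) F hF hGF b hbW hb 0 (Nat.mul_pos hW₀0 hq) X hX1 hX2
  obtain ⟨i, hi⟩ := card_pos.1 (by rw [h1]; exact one_pos)
  have hV := V_ge F hF.per W₀ q b z N (fun _ : Fin (2 ^ k) => (0 : ℕ)) (fun _ => rfl) hz
  obtain ⟨W, hW⟩ : ∃ W : ℕ, W = W₀ * q := ⟨_, rfl⟩
  have hW0 : 0 < W := by rw [hW]; exact Nat.mul_pos hW₀0 hq
  have hcard : A'.card ≤ ((Ioc N (N + X)).filter (fun n : ℕ => n % q = a % q ∧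
            Gf A B C F N (η / 2) n)).card := by
    rw [← hW] at hbW h5 h9 h10 h11
    apply card_le_card_of_injOn (fun K => W * K + b)
    · intro K hK
      obtain ⟨hK1, hK2⟩ := h11 K hK
      rw [mem_Ioc] at hK1
      have h3 : W * K ≤ W * (M + L) := Nat.mul_le_mul_left _ hK1.2
      have h3' : W * M ≤ W * K := Nat.mul_le_mul_left _ hK1.1.le
      have e1 : W * (M + L) = W * M + W * L := by ring
      have e2 : W * (L + 2) = W * L + W + W := by ring
      rw [mem_coe, mem_filter, mem_Ioc]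
      refine ⟨⟨?_, ?_⟩, ?_, ?_⟩
      · show N < W * K + b
        omega
      · show W * K + b ≤ N + X
        omega
      · show (W * K + b) % q = a % q
        have : W * K + b = q * (W₀ * K) + b := by rw [hW]; ring
        rw [this, Nat.mul_add_mod]
        exact hba
      · exact Gf_mono A B C F N (η / 2) ε₁ (by linarith) (by omega) _ (hK2 i hi)
    · intro K hK K' hK' hKK
      have h0 : W * K + b = W * K' + b := hKK
      exact Nat.eq_of_mul_eq_mul_left hW0 (by omega)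
  have hXr : (X : ℝ) ≤ 4 * (W₀ * q * L) := by exact_mod_cast h7
  have hP0 : 0 ≤ ∏ p ∈ PS q N, (1 - (rt F p : ℝ) / p) := by
    apply prod_nonneg
    intro p hp
    unfold PS at hp
    have hp2 := (mem_filter.1 hp).2.1
    have hp0 : (0 : ℝ) < p := by exact_mod_cast hp2.pos
    have h1 : rt F p ≤ p := by
      unfold rt
      exact (card_filter_le _ _).trans (le_of_eq (card_range p))
    have h2 : (rt F p : ℝ) / p ≤ 1 := by
      rw [div_le_one hp0]
      exact_mod_cast h1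
    linarith
  set P : ℝ := ∏ p ∈ PS q N, (1 - (rt F p : ℝ) / p) with hP
  calc c / (4 * W₀) * (X / q * P) ≤ c / (4 * W₀) * (4 * (W₀ * q * L) / q * P) := by
        apply mul_le_mul_of_nonneg_left _ (by positivity)
        apply mul_le_mul_of_nonneg_right _ hP0
        exact div_le_div_of_nonneg_right hXr hqr.le
    _ = c * (L * P) := by field_simp
    _ ≤ c * (L * Vp F (W₀ * q) b z (fun _ : Fin (2 ^ k) => 0)) := by
        apply mul_le_mul_of_nonneg_left _ hc.le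
        exact mul_le_mul_of_nonneg_left hV (Nat.cast_nonneg _)
    _ ≤ A'.card := h2
    _ ≤ _ := by exact_mod_cast hcard

open Classical in
/-- **The right order of magnitude, uniformly in the companion and in the class.** -/
theorem one_poly_q (A : ℕ) (B C : ℤ) (hA : 1 ≤ A) (hna : ¬ IsSquare (B ^ 2 - 4 * (A : ℤ) * C)) :
    ∃ δ₀ : ℝ, 0 < δ₀ ∧ δ₀ ≤ 1 / 100 ∧ ∀ D₀ : ℕ, ∃ δ c : ℝ, 0 < δ ∧ 0 < c ∧
      ∀ᶠ N : ℕ in atTop, ∀ g : ℤ[X], g.natDegree ≤ D₀ →
        (∀ p : ℕ, p.Prime → ∃ n : ℤ, ¬ (p : ℤ) ∣ fv A B C n * g.eval n) →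
        ∀ q a : ℕ, 0 < q → (q : ℝ) ≤ (N : ℝ) ^ δ →
        (∀ p : ℕ, p.Prime → p ∣ q → ¬ (p : ℤ) ∣ fv A B C a * g.eval (a : ℤ)) →
        ∀ X : ℕ, (N : ℝ) ^ (1 - δ₀) ≤ X → 2 * X ≤ N →
          c * (X / q * ∏ p ∈ PS q N, (1 - (rt (fun n => fv A B C n * g.eval n) p : ℝ) / p)) ≤
            (((Ioc N (N + X)).filter (fun n : ℕ => n % q = a % q ∧
            Gf A B C (fun n => g.eval n) N δ n)).card : ℝ) := by
  classical
  by_cases hfd : ∀ p : ℕ, p.Prime → ∃ n : ℤ, ¬ (p : ℤ) ∣ fv A B C n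
  swap
  · have hno : ∀ g : ℤ[X], ¬ ∀ p : ℕ, p.Prime → ∃ n : ℤ, ¬ (p : ℤ) ∣ fv A B C n * g.eval n := by
      intro g hg
      apply hfd
      intro p hp
      obtain ⟨n, hn⟩ := hg p hp
      exact ⟨n, fun h => hn (Dvd.dvd.mul_right h _)⟩
    refine ⟨1 / 100, by norm_num, le_rfl, fun D₀ => ⟨1, 1, one_pos, one_pos, ?_⟩⟩
    exact Eventually.of_forall fun N g _ hg => absurd hg (hno g)
  have hΔ : ¬ IsSquare (-(dt A B C)) := by
    have e : B ^ 2 - 4 * (A : ℤ) * C = -(dt A B C) := by unfold dt; ring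
    rw [← e]
    exact hna
  have hGne : QG A B C ≠ 0 := by
    intro h
    have := congrArg (fun Q : ℤ[X] => Q.eval 0) h
    simp only [QG_eval, eval_zero] at this
    exact QG_ne_zero A B C hna 0 this
  have hGd : ∀ p : ℕ, p.Prime → ∃ n : ℤ, ¬ (p : ℤ) ∣ (QG A B C).eval n := by
    intro p hp
    obtain ⟨n, hn⟩ := hfd p hp
    refine ⟨n, fun h => hn ?_⟩
    rwa [QG_eval] at h
  obtain ⟨g₁, hg₁⟩ := Pool.Agent.Y677.RSZ.poly_all (QG A B C) hGne hGd
  rw [Pool.Agent.H543.MQ.fv_QG] at hg₁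
  obtain ⟨δ₂, hδ₂, hδ₂1, hcl2⟩ := one_q A B C hA hΔ (A + B.natAbs + C.natAbs) (fun n => by
      constructor
      · show (A : ℤ) * (n : ℤ) ^ 2 + B * n + C ≠ 0
        exact QG_ne_zero A B C hna _
      · show ((A : ℤ) * (n : ℤ) ^ 2 + B * n + C).natAbs ≤ _
        have h1 : ((A : ℤ) * (n : ℤ) ^ 2 + B * n + C).natAbs ≤
            A * n ^ 2 + B.natAbs * n + C.natAbs := by
          calc ((A : ℤ) * (n : ℤ) ^ 2 + B * n + C).natAbs ≤
                ((A : ℤ) * (n : ℤ) ^ 2 + B * n).natAbs + C.natAbs := Int.natAbs_add_le _ _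
            _ ≤ ((A : ℤ) * (n : ℤ) ^ 2).natAbs + (B * n).natAbs + C.natAbs := by
                have := Int.natAbs_add_le ((A : ℤ) * (n : ℤ) ^ 2) (B * n)
                omega
            _ = _ := by
                rw [Int.natAbs_mul, Int.natAbs_mul, Int.natAbs_pow, Int.natAbs_natCast,
                  Int.natAbs_natCast]
        refine h1.trans ?_
        nlinarith [Nat.zero_le (A * n), Nat.zero_le (B.natAbs * n ^ 2),
          Nat.zero_le (B.natAbs * n), Nat.zero_le (C.natAbs * n), Nat.zero_le (C.natAbs * n ^ 2),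
          Nat.zero_le A, Nat.zero_le B.natAbs, Nat.zero_le C.natAbs])
  refine ⟨δ₂, hδ₂, hδ₂1, fun D₀ => ?_⟩
  obtain ⟨δ, c, hδ, hc, h2⟩ := hcl2 (D₀ + 2 + g₁ + 1) (by omega)
    (Pool.Agent.Y677.RSZ.Sys.mono hg₁ (by omega))
  have heval : ∀ (g : ℤ[X]) (n : ℤ), (QG A B C * g).eval n = fv A B C n * g.eval n := by
    intro g n
    rw [eval_mul, QG_eval]
    rfl
  refine ⟨δ, c, hδ, hc, ?_⟩
  filter_upwards [h2] with N hN g hgd hg q a hq hqN haq X hX1 hX2
  have hnum := hN (fun n => (QG A B C * g).eval n) (by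
        apply sys0_poly
        · have h3 := natDegree_mul_le (p := QG A B C) (q := g)
          have h4 := QG_deg A B C
          omega
        · intro p hp
          obtain ⟨n, hn⟩ := hg p hp
          exact ⟨n, by rwa [heval]⟩) (by
        intro p _ n hn
        show (p : ℤ) ∣ (QG A B C * g).eval n
        rw [heval]
        exact Dvd.dvd.mul_right hn _) q a hq hqN (by
        intro p hp hpq
        show ¬ (p : ℤ) ∣ (QG A B C * g).eval (a : ℤ)
        rw [heval]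
        exact haq p hp hpq) X hX1 hX2
  have e : (fun n => (QG A B C * g).eval n) = fun n => fv A B C n * g.eval n := by
    funext n
    exact heval g n
  have hsub : ((Ioc N (N + X)).filter (fun n : ℕ => n % q = a % q ∧
              Gf A B C (fun n => (QG A B C * g).eval n) N δ n)).card ≤
              ((Ioc N (N + X)).filter (fun n : ℕ => n % q = a % q ∧
              Gf A B C (fun n => g.eval n) N δ n)).card :=
    card_le_card (fun n hn => by
      rw [mem_filter] at hn ⊢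
      exact ⟨hn.1, hn.2.1, Gf_of_mul A B C g N δ _ hn.2.2⟩)
  have hprod : ∏ p ∈ PS q N, (1 - (rt (fun n => fv A B C n * g.eval n) p : ℝ) / p) =
      ∏ p ∈ PS q N, (1 - (rt (fun n => (QG A B C * g).eval n) p : ℝ) / p) := by rw [e]
  rw [hprod]
  refine hnum.trans ?_
  exact_mod_cast hsub

end Pool.Agent.H543.MQ.R
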