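import Pool.Agent.H543.MQ.R.R3
import Pool.Graph.R_seed8.H474R2.GE.FA

/-!
# The size of the product over the primes
-/

set_option autoImplicit false

namespace Pool.Agent.H543.MQ.R

open Finset Filter Polynomial
open Pool.Agent.H543.MQ.U (Sys0)
open Pool.Agent.Y677.RSZ (rt)

theorem one_sub_ge (x K : ℝ) (h1 : x < 1) (hK : 1 ≤ K * (1 - x)) :
    Real.exp (-(x + K * x ^ 2)) ≤ 1 - x := by
  have h2 : 0 < 1 - x := by linarith
  have h3 := Real.one_sub_inv_le_log_of_pos h2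
  have h4 : (1 - x)⁻¹ ≤ K := by
    rw [inv_le_iff_one_le_mul₀ h2]
    exact hK
  have h5 : (1 - x)⁻¹ = 1 + x + x ^ 2 * (1 - x)⁻¹ := by
    field_simp
    ring
  have h6 : x ^ 2 * (1 - x)⁻¹ ≤ x ^ 2 * K := mul_le_mul_of_nonneg_left h4 (sq_nonneg x)
  calc Real.exp (-(x + K * x ^ 2)) ≤ Real.exp (Real.log (1 - x)) := by
        apply Real.exp_le_exp.2
        linarith
    _ = 1 - x := Real.exp_log h2

theorem sum_sq_le (N : ℕ) : ∑ p ∈ (Icc 1 N).filter Nat.Prime, 1 / (p : ℝ) ^ 2 ≤ 2 := by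
  have h1 : ∑ p ∈ (Icc 1 N).filter Nat.Prime, 1 / (p : ℝ) ^ 2 ≤
      ∑ p ∈ Ioo 0 (N + 1), ((p : ℝ) ^ 2)⁻¹ := by
    have h2 : (Icc 1 N).filter Nat.Prime ⊆ Ioo 0 (N + 1) := by
      intro p hp
      rw [mem_filter, mem_Icc] at hp
      rw [mem_Ioo]
      omega
    refine le_trans (le_of_eq ?_) (sum_le_sum_of_subset_of_nonneg h2 fun p _ _ => by positivity)
    refine sum_congr rfl fun p _ => ?_
    rw [one_div]
  refine h1.trans ((sum_Ioo_inv_sq_le 0 (N + 1)).trans ?_)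
  norm_num

theorem prod_low (P : ℤ[X]) (g : ℕ) (hF : Sys0 g (fun n => P.eval n)) (k : ℕ)
    (fs : Fin k → ℤ[X]) (hi : ∀ i, Irreducible (fs i)) (hd : ∀ i, 0 < (fs i).natDegree)
    (hP : ∀ p : ℕ, p.Prime → ∀ n : ℤ, (p : ℤ) ∣ P.eval n → ∃ i, (p : ℤ) ∣ (fs i).eval n) :
    ∃ c : ℝ, 0 < c ∧ ∀ N : ℕ, 3 ≤ N → c / Real.log N ^ k ≤
      ∏ p ∈ (Icc 1 N).filter Nat.Prime, (1 - (rt (fun n => P.eval n) p : ℝ) / p) := by
  choose C hC0 hC using fun i => Pool.Agent.H474R2.GE.mertens_rho (fs i) (hi i) (hd i)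
  refine ⟨Real.exp (-(∑ i, C i + 2 * (g + 1) * g ^ 2 * 2)), Real.exp_pos _, fun N hN => ?_⟩
  have hNr : (3 : ℝ) ≤ N := by exact_mod_cast hN
  have hl : 0 < Real.log N := Real.log_pos (by linarith)
  obtain ⟨x, hx⟩ : ∃ x : ℕ → ℝ, ∀ p, x p = (rt (fun n => P.eval n) p : ℝ) / p := ⟨_, fun _ => rfl⟩
  have hg0 : (0 : ℝ) ≤ g := Nat.cast_nonneg g
  have hfac : ∀ p ∈ (Icc 1 N).filter Nat.Prime,
      Real.exp (-(x p + 2 * (g + 1) * x p ^ 2)) ≤ 1 - x p := by
    intro p hp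
    have hpp := (mem_filter.1 hp).2
    have hp0 : (0 : ℝ) < p := by exact_mod_cast hpp.pos
    obtain ⟨h1, h2⟩ := hF.root p hpp
    have h1r : (rt (fun n => P.eval n) p : ℝ) ≤ g := by exact_mod_cast h1
    have h2r : (rt (fun n => P.eval n) p : ℝ) + 1 ≤ p := by exact_mod_cast h2
    apply one_sub_ge
    · rw [hx, div_lt_one hp0]
      linarith
    · rw [hx]
      have e : 1 - (rt (fun n => P.eval n) p : ℝ) / p =
          (p - rt (fun n => P.eval n) p) / p := by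
        field_simp
      rw [e, mul_div_assoc', le_div_iff₀ hp0, one_mul]
      rcases le_or_gt (2 * g : ℝ) p with h | h
      · nlinarith
      · nlinarith
  have hprod : ∏ p ∈ (Icc 1 N).filter Nat.Prime, Real.exp (-(x p + 2 * (g + 1) * x p ^ 2)) ≤
      ∏ p ∈ (Icc 1 N).filter Nat.Prime, (1 - x p) :=
    Finset.prod_le_prod (fun p _ => (Real.exp_pos _).le) hfac
  rw [← Real.exp_sum] at hprod
  have hgoal : ∏ p ∈ (Icc 1 N).filter Nat.Prime, (1 - (rt (fun n => P.eval n) p : ℝ) / p) =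
      ∏ p ∈ (Icc 1 N).filter Nat.Prime, (1 - x p) := prod_congr rfl fun p _ => by rw [hx]
  rw [hgoal]
  refine le_trans ?_ hprod
  -- the sums
  have hPR : Pool.Agent.H474R2.PG.PR (N : ℝ) = (Icc 1 N).filter Nat.Prime := by
    unfold Pool.Agent.H474R2.PG.PR
    rw [Nat.floor_natCast]
  have hs1 : ∑ p ∈ (Icc 1 N).filter Nat.Prime, x p ≤ k * Real.log (Real.log N) + ∑ i, C i := by
    have h1 : ∑ p ∈ (Icc 1 N).filter Nat.Prime, x p ≤
        ∑ p ∈ (Icc 1 N).filter Nat.Prime, ∑ i, (Pool.Agent.H474R2.PG.rho (fs i) p : ℝ) / p := by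
      refine sum_le_sum fun p hp => ?_
      have hpp := (mem_filter.1 hp).2
      have hp0 : (0 : ℝ) < p := by exact_mod_cast hpp.pos
      rw [hx, ← sum_div]
      apply div_le_div_of_nonneg_right _ hp0.le
      have h2 : rt (fun n => P.eval n) p ≤ ∑ i, Pool.Agent.H474R2.PG.rho (fs i) p := by
        unfold rt Pool.Agent.H474R2.PG.rho
        refine le_trans (card_le_card ?_) card_biUnion_le
        intro n hn
        rw [mem_filter] at hn
        rw [mem_biUnion]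
        obtain ⟨i, hi⟩ := hP p hpp n hn.2
        exact ⟨i, mem_univ _, mem_filter.2 ⟨hn.1, hi⟩⟩
      exact_mod_cast h2
    refine h1.trans ?_
    rw [sum_comm]
    have h3 : ∀ i, ∑ p ∈ (Icc 1 N).filter Nat.Prime, (Pool.Agent.H474R2.PG.rho (fs i) p : ℝ) / p ≤
        Real.log (Real.log N) + C i := by
      intro i
      have h4 := (abs_le.1 (hC i N hNr)).2
      unfold Pool.Agent.H474R2.PG.Sg at h4
      rw [hPR] at h4
      linarith
    refine (sum_le_sum fun i _ => h3 i).trans (le_of_eq ?_)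
    rw [sum_add_distrib, sum_const, card_univ, Fintype.card_fin, nsmul_eq_mul]
  have hs2 : ∑ p ∈ (Icc 1 N).filter Nat.Prime, 2 * ((g : ℝ) + 1) * x p ^ 2 ≤
      2 * ((g : ℝ) + 1) * (g : ℝ) ^ 2 * 2 := by
    calc ∑ p ∈ (Icc 1 N).filter Nat.Prime, 2 * ((g : ℝ) + 1) * x p ^ 2 ≤
          ∑ p ∈ (Icc 1 N).filter Nat.Prime, 2 * ((g : ℝ) + 1) * g ^ 2 * (1 / (p : ℝ) ^ 2) := by
          refine sum_le_sum fun p hp => ?_
          have hpp := (mem_filter.1 hp).2
          have hp0 : (0 : ℝ) < p := by exact_mod_cast hpp.pos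
          have h1 : (rt (fun n => P.eval n) p : ℝ) ≤ g := by exact_mod_cast (hF.root p hpp).1
          have h2 : x p ^ 2 ≤ g ^ 2 * (1 / (p : ℝ) ^ 2) := by
            rw [hx, div_pow, mul_one_div]
            apply div_le_div_of_nonneg_right _ (by positivity)
            exact pow_le_pow_left₀ (Nat.cast_nonneg _) h1 2
          calc 2 * ((g : ℝ) + 1) * x p ^ 2 ≤ 2 * ((g : ℝ) + 1) * (g ^ 2 * (1 / (p : ℝ) ^ 2)) :=
                mul_le_mul_of_nonneg_left h2 (by positivity)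
            _ = _ := by ring
      _ = 2 * ((g : ℝ) + 1) * g ^ 2 * ∑ p ∈ (Icc 1 N).filter Nat.Prime, 1 / (p : ℝ) ^ 2 := by
          rw [mul_sum]
      _ ≤ _ := mul_le_mul_of_nonneg_left (sum_sq_le N) (by positivity)
  have hexp : Real.exp (-(∑ i, C i + 2 * (g + 1) * g ^ 2 * 2)) / Real.log N ^ k =
      Real.exp (-(k * Real.log (Real.log N) + ∑ i, C i + 2 * (g + 1) * g ^ 2 * 2)) := by
    have e1 : Real.log N ^ k = Real.exp (k * Real.log (Real.log N)) := by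
      rw [mul_comm, Real.exp_mul, Real.exp_log hl, Real.rpow_natCast]
    rw [e1, ← Real.exp_sub]
    congr 1
    ring
  rw [hexp]
  apply Real.exp_le_exp.2
  rw [sum_neg_distrib, sum_add_distrib]
  linarith

end Pool.Agent.H543.MQ.R
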