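import Mathlib

/-!
# `8 X ^ 2 - 1` is irreducible
-/

set_option autoImplicit false

namespace Pool.Agent.H543.MQ.R

open Polynomial

theorem not_sq8 : ¬ IsSquare (8 : ℤ) := by
  rintro ⟨r, hr⟩
  have h2 : |r| ≤ 2 := by
    by_contra h
    push Not at h
    have h3 : (3 : ℤ) ≤ |r| := h
    have h4 : |r| * |r| = 8 := by rw [abs_mul_abs_self]; exact hr.symm
    nlinarith
  obtain ⟨h4, h5⟩ := abs_le.1 h2
  interval_cases r <;> omega

theorem irr8 : Irreducible (C 8 * X ^ 2 - 1 : ℤ[X]) := by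
  have hprim : (C 8 * X ^ 2 - 1 : ℤ[X]).IsPrimitive := by
    intro r hr
    have h := (Polynomial.C_dvd_iff_dvd_coeff r _).1 hr 0
    have h1 : (C 8 * X ^ 2 - 1 : ℤ[X]).coeff 0 = -1 := by
      simp [coeff_X_pow]
    rw [h1, dvd_neg] at h
    exact isUnit_of_dvd_one h
  rw [Polynomial.IsPrimitive.Int.irreducible_iff_irreducible_map_cast hprim]
  have hmap : (C 8 * X ^ 2 - 1 : ℤ[X]).map (Int.castRingHom ℚ) = C 8 * X ^ 2 - 1 := by
    have h8 : (Int.castRingHom ℚ) 8 = 8 := by simp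
    rw [Polynomial.map_sub, Polynomial.map_mul, Polynomial.map_pow, Polynomial.map_C,
      Polynomial.map_X, Polynomial.map_one, h8]
  rw [hmap]
  have hdeg : (C 8 * X ^ 2 - 1 : ℚ[X]).natDegree = 2 := by
    compute_degree!
  apply Polynomial.irreducible_of_degree_le_three_of_not_isRoot
  · rw [hdeg]
    decide
  · intro x hx
    have h1 : 8 * x ^ 2 - 1 = 0 := by
      have := hx
      unfold IsRoot at this
      simpa using this
    have h2 : IsSquare ((8 : ℤ) : ℚ) := ⟨8 * x, by push_cast; linarith⟩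
    rw [Rat.isSquare_intCast_iff] at h2
    exact not_sq8 h2

theorem deg8 : 0 < (C 8 * X ^ 2 - 1 : ℤ[X]).natDegree := by
  have : (C 8 * X ^ 2 - 1 : ℤ[X]).natDegree = 2 := by compute_degree!
  omega

end Pool.Agent.H543.MQ.R
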