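import Pool.Agent.H543.MQ.R.R4

/-!
# The size of the product over the primes, uniformly, and shifted quadratics
-/

set_option autoImplicit false

namespace Pool.Agent.H543.MQ.R

open Finset Filter Polynomial
open Pool.Agent.H543.MQ.U (Sys0)
open Pool.Agent.Y677.RSZ (rt)

theorem prod_low_unif (g : ℕ) (k : ℕ)
    (fs : Fin k → ℤ[X]) (hi : ∀ i, Irreducible (fs i)) (hd : ∀ i, 0 < (fs i).natDegree) :
    ∃ c : ℝ, 0 < c ∧ ∀ F : ℤ → ℤ, Sys0 g F →
      (∀ p : ℕ, p.Prime → rt F p ≤ ∑ i, Pool.Agent.H474R2.PG.rho (fs i) p) →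
      ∀ N : ℕ, 3 ≤ N → c / Real.log N ^ k ≤
      ∏ p ∈ (Icc 1 N).filter Nat.Prime, (1 - (rt F p : ℝ) / p) := by
  choose C hC0 hC using fun i => Pool.Agent.H474R2.GE.mertens_rho (fs i) (hi i) (hd i)
  refine ⟨Real.exp (-(∑ i, C i + 2 * (g + 1) * g ^ 2 * 2)), Real.exp_pos _, fun F hF hP N hN => ?_⟩
  have hNr : (3 : ℝ) ≤ N := by exact_mod_cast hN
  have hl : 0 < Real.log N := Real.log_pos (by linarith)
  obtain ⟨x, hx⟩ : ∃ x : ℕ → ℝ, ∀ p, x p = (rt F p : ℝ) / p := ⟨_, fun _ => rfl⟩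
  have hg0 : (0 : ℝ) ≤ g := Nat.cast_nonneg g
  have hfac : ∀ p ∈ (Icc 1 N).filter Nat.Prime,
      Real.exp (-(x p + 2 * (g + 1) * x p ^ 2)) ≤ 1 - x p := by
    intro p hp
    have hpp := (mem_filter.1 hp).2
    have hp0 : (0 : ℝ) < p := by exact_mod_cast hpp.pos
    obtain ⟨h1, h2⟩ := hF.root p hpp
    have h1r : (rt F p : ℝ) ≤ g := by exact_mod_cast h1
    have h2r : (rt F p : ℝ) + 1 ≤ p := by exact_mod_cast h2
    apply one_sub_ge
    · rw [hx, div_lt_one hp0]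
      linarith
    · rw [hx]
      have e : 1 - (rt F p : ℝ) / p =
          (p - rt F p) / p := by
        field_simp
      rw [e, mul_div_assoc', le_div_iff₀ hp0, one_mul]
      rcases le_or_gt (2 * g : ℝ) p with h | h
      · nlinarith
      · nlinarith
  have hprod : ∏ p ∈ (Icc 1 N).filter Nat.Prime, Real.exp (-(x p + 2 * (g + 1) * x p ^ 2)) ≤
      ∏ p ∈ (Icc 1 N).filter Nat.Prime, (1 - x p) :=
    Finset.prod_le_prod (fun p _ => (Real.exp_pos _).le) hfac
  rw [← Real.exp_sum] at hprod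
  have hgoal : ∏ p ∈ (Icc 1 N).filter Nat.Prime, (1 - (rt F p : ℝ) / p) =
      ∏ p ∈ (Icc 1 N).filter Nat.Prime, (1 - x p) := prod_congr rfl fun p _ => by rw [hx]
  rw [hgoal]
  refine le_trans ?_ hprod
  -- the sums
  have hPR : Pool.Agent.H474R2.PG.PR (N : ℝ) = (Icc 1 N).filter Nat.Prime := by
    unfold Pool.Agent.H474R2.PG.PR
    rw [Nat.floor_natCast]
  have hs1 : ∑ p ∈ (Icc 1 N).filter Nat.Prime, x p ≤ k * Real.log (Real.log N) + ∑ i, C i := by
    have h1 : ∑ p ∈ (Icc 1 N).filter Nat.Prime, x p ≤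
        ∑ p ∈ (Icc 1 N).filter Nat.Prime, ∑ i, (Pool.Agent.H474R2.PG.rho (fs i) p : ℝ) / p := by
      refine sum_le_sum fun p hp => ?_
      have hpp := (mem_filter.1 hp).2
      have hp0 : (0 : ℝ) < p := by exact_mod_cast hpp.pos
      rw [hx, ← sum_div]
      apply div_le_div_of_nonneg_right _ hp0.le
      have h2 : rt F p ≤ ∑ i, Pool.Agent.H474R2.PG.rho (fs i) p := hP p hpp
      exact_mod_cast h2
    refine h1.trans ?_
    rw [sum_comm]
    have h3 : ∀ i, ∑ p ∈ (Icc 1 N).filter Nat.Prime, (Pool.Agent.H474R2.PG.rho (fs i) p : ℝ) / p ≤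
        Real.log (Real.log N) + C i := by
      intro i
      have h4 := (abs_le.1 (hC i N hNr)).2
      unfold Pool.Agent.H474R2.PG.Sg at h4
      rw [hPR] at h4
      linarith
    refine (sum_le_sum fun i _ => h3 i).trans (le_of_eq ?_)
    rw [sum_add_distrib, sum_const, card_univ, Fintype.card_fin, nsmul_eq_mul]
  have hs2 : ∑ p ∈ (Icc 1 N).filter Nat.Prime, 2 * ((g : ℝ) + 1) * x p ^ 2 ≤
      2 * ((g : ℝ) + 1) * (g : ℝ) ^ 2 * 2 := by
    calc ∑ p ∈ (Icc 1 N).filter Nat.Prime, 2 * ((g : ℝ) + 1) * x p ^ 2 ≤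
          ∑ p ∈ (Icc 1 N).filter Nat.Prime, 2 * ((g : ℝ) + 1) * g ^ 2 * (1 / (p : ℝ) ^ 2) := by
          refine sum_le_sum fun p hp => ?_
          have hpp := (mem_filter.1 hp).2
          have hp0 : (0 : ℝ) < p := by exact_mod_cast hpp.pos
          have h1 : (rt F p : ℝ) ≤ g := by exact_mod_cast (hF.root p hpp).1
          have h2 : x p ^ 2 ≤ g ^ 2 * (1 / (p : ℝ) ^ 2) := by
            rw [hx, div_pow, mul_one_div]
            apply div_le_div_of_nonneg_right _ (by positivity)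
            exact pow_le_pow_left₀ (Nat.cast_nonneg _) h1 2
          calc 2 * ((g : ℝ) + 1) * x p ^ 2 ≤ 2 * ((g : ℝ) + 1) * (g ^ 2 * (1 / (p : ℝ) ^ 2)) :=
                mul_le_mul_of_nonneg_left h2 (by positivity)
            _ = _ := by ring
      _ = 2 * ((g : ℝ) + 1) * g ^ 2 * ∑ p ∈ (Icc 1 N).filter Nat.Prime, 1 / (p : ℝ) ^ 2 := by
          rw [mul_sum]
      _ ≤ _ := mul_le_mul_of_nonneg_left (sum_sq_le N) (by positivity)
  have hexp : Real.exp (-(∑ i, C i + 2 * (g + 1) * g ^ 2 * 2)) / Real.log N ^ k =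
      Real.exp (-(k * Real.log (Real.log N) + ∑ i, C i + 2 * (g + 1) * g ^ 2 * 2)) := by
    have e1 : Real.log N ^ k = Real.exp (k * Real.log (Real.log N)) := by
      rw [mul_comm, Real.exp_mul, Real.exp_log hl, Real.rpow_natCast]
    rw [e1, ← Real.exp_sub]
    congr 1
    ring
  rw [hexp]
  apply Real.exp_le_exp.2
  rw [sum_neg_distrib, sum_add_distrib]
  linarith


/-- the zeros of a product of two shifted quadratics -/
theorem rt_shift (c e s t : ℤ) (p : ℕ) (hp : p.Prime) :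
    rt (fun n => ((n + s) ^ 2 + c) * ((n + t) ^ 2 + e)) p ≤
      Pool.Agent.H474R2.PG.rho (Pool.Agent.Y882.SI.QF c) p +
        Pool.Agent.H474R2.PG.rho (Pool.Agent.Y882.SI.QF e) p := by
  have hsh : ∀ c s : ℤ, ((range p).filter (fun n : ℕ => (p : ℤ) ∣ ((n : ℤ) + s) ^ 2 + c)).card ≤
      Pool.Agent.H474R2.PG.rho (Pool.Agent.Y882.SI.QF c) p := by
    intro c s
    unfold Pool.Agent.H474R2.PG.rho
    have hp0 : (0 : ℤ) < p := by exact_mod_cast hp.pos
    apply card_le_card_of_injOn (fun n : ℕ => (((n : ℤ) + s) % p).toNat)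
    · intro n hn
      rw [mem_coe, mem_filter, mem_range] at hn
      rw [mem_coe, mem_filter, mem_range]
      have h1 := Int.emod_nonneg ((n : ℤ) + s) hp0.ne'
      have h2 := Int.emod_lt_of_pos ((n : ℤ) + s) hp0
      refine ⟨?_, ?_⟩
      · show (((n : ℤ) + s) % p).toNat < p
        omega
      · show (p : ℤ) ∣ (Pool.Agent.Y882.SI.QF c).eval (((((n : ℤ) + s) % p).toNat : ℕ) : ℤ)
        rw [Int.toNat_of_nonneg h1, Pool.Agent.Y882.SI.QF_eval]
        have h3 : (p : ℤ) ∣ (((n : ℤ) + s) ^ 2 + c) - ((((n : ℤ) + s) % p) ^ 2 + c) := by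
          have h4 : (p : ℤ) ∣ ((n : ℤ) + s) - (((n : ℤ) + s) % p) := Int.dvd_self_sub_emod
          have h5 : (((n : ℤ) + s) ^ 2 + c) - ((((n : ℤ) + s) % p) ^ 2 + c) =
              (((n : ℤ) + s) - (((n : ℤ) + s) % p)) * (((n : ℤ) + s) + (((n : ℤ) + s) % p)) := by
            ring
          rw [h5]
          exact Dvd.dvd.mul_right h4 _
        exact (dvd_sub_right hn.2).1 h3
    · intro n hn n' hn' h
      rw [mem_coe, mem_filter, mem_range] at hn hn'
      have h0 : (((n : ℤ) + s) % p).toNat = (((n' : ℤ) + s) % p).toNat := h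
      have h1 := Int.emod_nonneg ((n : ℤ) + s) hp0.ne'
      have h2 := Int.emod_nonneg ((n' : ℤ) + s) hp0.ne'
      have h3 : ((n : ℤ) + s) % p = ((n' : ℤ) + s) % p := by omega
      have h4 : (n : ℤ) ≡ n' [ZMOD p] := Int.ModEq.add_right_cancel' s h3
      have h5 : n ≡ n' [MOD p] := Int.natCast_modEq_iff.1 h4
      exact Nat.ModEq.eq_of_lt_of_lt h5 hn.1 hn'.1
  have h1 : rt (fun n => ((n + s) ^ 2 + c) * ((n + t) ^ 2 + e)) p ≤
      ((range p).filter (fun n : ℕ => (p : ℤ) ∣ ((n : ℤ) + s) ^ 2 + c)).card +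
      ((range p).filter (fun n : ℕ => (p : ℤ) ∣ ((n : ℤ) + t) ^ 2 + e)).card := by
    unfold rt
    refine le_trans (card_le_card ?_) (card_union_le _ _)
    intro n hn
    rw [mem_filter] at hn
    rw [mem_union, mem_filter, mem_filter]
    rcases (Nat.prime_iff_prime_int.1 hp).dvd_or_dvd hn.2 with h | h
    · exact Or.inl ⟨hn.1, h⟩
    · exact Or.inr ⟨hn.1, h⟩
  exact h1.trans (Nat.add_le_add (hsh c s) (hsh e t))

end Pool.Agent.H543.MQ.R
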